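import Mathlib

/-!
# Duhamel estimates

`duhamel_left`: the function `φ s = v * exp (s • X) * exp ((t - s) • (X + G)) * w` has derivative
`- v * exp (s • X) * G * exp ((t - s) • (X + G)) * w` (`hasDerivAt_exp_smul_const`,
`hasDerivAt_exp_smul_const'`), `φ 0 = v * exp (t • (X + G)) * w`, `φ t = v * exp (t • X) * w`. By
the mean value inequality (`image_norm_le_of_norm_deriv_right_le_deriv_boundary` applied to
`φ s - φ 0` and `B s - B 0`, or `norm_image_sub_le_of_norm_deriv_le_...`)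
`‖φ t - φ 0‖ ≤ B t - B 0`. `duhamel_right`: the same with
`φ s = v * exp ((t - s) • (X + G)) * exp (s • X) * w`.
`norm_exp_sub_one`: `exp (t • L) * a - a` has derivative `exp (t • L) * (L * a)` in `t`, of norm
at most `K * θ` if `‖exp (s • L)‖ ≤ K` on `[0, t]`.
-/

set_option autoImplicit false

open scoped Topology
open Filter NormedSpace

noncomputable section

namespace LCQG.Semi

variable {A : Type*} [NormedRing A] [NormedAlgebra ℝ A] [CompleteSpace A]

private theorem mvt_aux {φ φ' : ℝ → A} {t : ℝ} (ht : 0 ≤ t) (B B' : ℝ → ℝ)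
    (hφ : ∀ s, HasDerivAt φ (φ' s) s) (hB : ∀ s, HasDerivAt B (B' s) s)
    (hbd : ∀ s ∈ Set.Icc 0 t, ‖φ' s‖ ≤ B' s) : ‖φ t - φ 0‖ ≤ B t - B 0 := by
  have h := image_norm_le_of_norm_deriv_right_le_deriv_boundary (a := 0) (b := t)
    (f := fun s => φ s - φ 0) (f' := φ') (B := fun s => B s - B 0) (B' := B')
    (fun s _ => ((hφ s).sub_const (φ 0)).continuousAt.continuousWithinAt)
    (fun s _ => ((hφ s).sub_const (φ 0)).hasDerivWithinAt) (by simp)
    (fun s => (hB s).sub_const (B 0)) (fun s hs => hbd s ⟨hs.1, hs.2.le⟩)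
  exact h ⟨ht, le_rfl⟩

theorem duhamel_left (v w X G : A) {t : ℝ} (ht : 0 ≤ t) (B B' : ℝ → ℝ)
    (hB : ∀ s, HasDerivAt B (B' s) s)
    (hbd : ∀ s ∈ Set.Icc 0 t,
      ‖v * exp (s • X) * G * exp ((t - s) • (X + G)) * w‖ ≤ B' s) :
    ‖v * exp (t • (X + G)) * w - v * exp (t • X) * w‖ ≤ B t - B 0 := by
  have hφ : ∀ s : ℝ, HasDerivAt (fun s : ℝ => v * (exp (s • X) * exp ((t - s) • (X + G))) * w)
      (-(v * exp (s • X) * G * exp ((t - s) • (X + G)) * w)) s := by
    intro s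
    have h1 := hasDerivAt_exp_smul_const X s
    have h2 := (hasDerivAt_exp_smul_const' (X + G) (t - s)).scomp s
      ((hasDerivAt_id s).const_sub t)
    have h := ((h1.mul h2).const_mul v).mul_const w
    refine h.congr_deriv ?_
    simp only [neg_smul, one_smul, Function.comp]
    noncomm_ring
  have key := mvt_aux ht B B' hφ hB (fun s hs => by rw [norm_neg]; exact hbd s hs)
  simp only [sub_self, zero_smul, exp_zero, mul_one, sub_zero, one_mul] at key
  rw [norm_sub_rev]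
  exact key

theorem duhamel_right (v w X G : A) {t : ℝ} (ht : 0 ≤ t) (B B' : ℝ → ℝ)
    (hB : ∀ s, HasDerivAt B (B' s) s)
    (hbd : ∀ s ∈ Set.Icc 0 t,
      ‖v * exp ((t - s) • (X + G)) * G * exp (s • X) * w‖ ≤ B' s) :
    ‖v * exp (t • (X + G)) * w - v * exp (t • X) * w‖ ≤ B t - B 0 := by
  have hφ : ∀ s : ℝ, HasDerivAt (fun s : ℝ => v * (exp ((t - s) • (X + G)) * exp (s • X)) * w)
      (-(v * exp ((t - s) • (X + G)) * G * exp (s • X) * w)) s := by
    intro s
    have h1 := hasDerivAt_exp_smul_const' X s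
    have h2 := (hasDerivAt_exp_smul_const (X + G) (t - s)).scomp s
      ((hasDerivAt_id s).const_sub t)
    have h := ((h2.mul h1).const_mul v).mul_const w
    refine h.congr_deriv ?_
    simp only [neg_smul, one_smul, Function.comp]
    noncomm_ring
  have key := mvt_aux ht B B' hφ hB (fun s hs => by rw [norm_neg]; exact hbd s hs)
  simp only [sub_self, zero_smul, exp_zero, mul_one, sub_zero, one_mul] at key
  rw [norm_sub_rev]
  exact key

/-- If `‖L * a‖ ≤ θ` and the semigroup is contractive then `‖exp (t • L) * a - a‖ ≤ t * θ`. -/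
theorem norm_exp_mul_sub_le (L a : A) {θ : ℝ} (hθ : ‖L * a‖ ≤ θ) {t : ℝ} (ht : 0 ≤ t)
    (hexp : ∀ s : ℝ, 0 ≤ s → ‖exp (s • L)‖ ≤ 1) : ‖exp (t • L) * a - a‖ ≤ t * θ := by
  have hφ : ∀ s : ℝ, HasDerivAt (fun s : ℝ => exp (s • L) * a) (exp (s • L) * L * a) s :=
    fun s => (hasDerivAt_exp_smul_const L s).mul_const a
  have hB : ∀ s : ℝ, HasDerivAt (fun s : ℝ => s * θ) θ s := fun s => by
    simpa using (hasDerivAt_id s).mul_const θ
  have key := mvt_aux ht (fun s => s * θ) (fun _ => θ) hφ hB (fun s hs => by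
    rw [mul_assoc]
    refine (norm_mul_le _ _).trans ?_
    have h0 : 0 ≤ ‖L * a‖ := norm_nonneg _
    nlinarith [hexp s hs.1, norm_nonneg (exp (s • L))])
  simp only [zero_smul, exp_zero, one_mul, zero_mul, sub_zero] at key
  exact key

/-- If both semigroups are contractive and `‖Z‖ ≤ κ` then
`‖exp (t • (L + Z)) - exp (t • L)‖ ≤ t * κ`. -/
theorem norm_exp_add_sub_le (L Z : A) {κ : ℝ} (hκ : ‖Z‖ ≤ κ) {t : ℝ} (ht : 0 ≤ t)
    (h1 : ‖(1 : A)‖ ≤ 1) (hexp : ∀ s : ℝ, 0 ≤ s → ‖exp (s • L)‖ ≤ 1)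
    (hexp' : ∀ s : ℝ, 0 ≤ s → ‖exp (s • (L + Z))‖ ≤ 1) :
    ‖exp (t • (L + Z)) - exp (t • L)‖ ≤ t * κ := by
  have hB : ∀ s : ℝ, HasDerivAt (fun s : ℝ => s * κ) κ s := fun s => by
    simpa using (hasDerivAt_id s).mul_const κ
  have key := duhamel_left 1 1 L Z ht (fun s => s * κ) (fun _ => κ) hB (fun s hs => by
    rw [one_mul, mul_one]
    have e1 := hexp s hs.1
    have e2 := hexp' (t - s) (sub_nonneg.2 hs.2)
    have e3 : ‖exp (s • L) * Z‖ ≤ κ := by
      refine (norm_mul_le _ _).trans ?_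
      nlinarith [norm_nonneg (exp (s • L)), norm_nonneg Z]
    refine (norm_mul_le _ _).trans ?_
    nlinarith [norm_nonneg (exp (s • L) * Z), norm_nonneg (exp ((t - s) • (L + Z)))])
  simp only [one_mul, mul_one, zero_mul, sub_zero] at key
  exact key

end LCQG.Semi
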