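import Mathlib

/-!
# Generators of convolution semigroups in a Banach algebra

`A` is a unital real Banach algebra and `S ⊆ A` a closed convex subset of the unit ball, closed
under multiplication ('probability measures'). For `F ∈ S` and `c ≥ 0` the element `c • (F - 1)`
is called a generator.

`exp_gen`. For `c = 0` take any `a ∈ S`. Let `c > 0`. We have
`exp (c • (F - 1)) = exp (-c) • exp (c • F)` (`NormedSpace.exp_add_of_commute`,
`c • (F - 1) = c • F + (-c) • 1`, `NormedSpace.exp` of `(-c) • 1` is `Real.exp (-c) • 1`), and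
`exp (c • F) = 1 + ∑' n, (c ^ (n + 1) / (n + 1)!) • F ^ (n + 1)`, where `F ^ (n + 1) ∈ S` and
`∑' n, c ^ (n + 1) / (n + 1)! = Real.exp c - 1 > 0`. The finite sums
`s_N = ∑ n < N, c ^ (n + 1) / (n + 1)!` and the elements
`a_N = s_N⁻¹ • ∑ n < N, (c ^ (n + 1) / (n + 1)!) • F ^ (n + 1) ∈ S` (`Convex.sum_mem`, `N ≥ 1`)
converge: `a_N → a := (Real.exp c - 1)⁻¹ • (exp (c • F) - 1) ∈ S` (closedness). So
`exp (c • (F - 1)) = exp (-c) • 1 + (1 - exp (-c)) • a`.
-/

set_option autoImplicit false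
set_option linter.unusedSectionVars false

open scoped Topology
open Filter NormedSpace

noncomputable section

namespace LCQG.Semi

variable {A : Type*} [NormedRing A] [NormedAlgebra ℝ A] [CompleteSpace A]

/-- The standing assumptions on the set `S` of 'probability measures'. -/
structure ConvSemi (S : Set A) : Prop where
  convex : Convex ℝ S
  closed : IsClosed S
  mul_mem : ∀ a ∈ S, ∀ b ∈ S, a * b ∈ S
  norm_le : ∀ a ∈ S, ‖a‖ ≤ 1
  nonempty : S.Nonempty
  norm_one : ‖(1 : A)‖ ≤ 1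

private theorem pow_succ_mem {S : Set A} (hS : ConvSemi S) {F : A} (hF : F ∈ S) (n : ℕ) :
    F ^ (n + 1) ∈ S := by
  induction n with
  | zero => simpa using hF
  | succ n ih =>
    rw [pow_succ]
    exact hS.mul_mem _ ih _ hF

private theorem exp_smul_one (c : ℝ) : exp (c • (1 : A)) = Real.exp c • (1 : A) := by
  have h := algebraMap_exp_comm (𝕂 := ℝ) (𝔸 := A) c
  rw [Algebra.algebraMap_eq_smul_one, Algebra.algebraMap_eq_smul_one, ← Real.exp_eq_exp_ℝ] at h
  exact h.symm

private theorem exp_sub_one_real (c : ℝ) :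
    HasSum (fun n : ℕ => (((n + 1).factorial : ℝ)⁻¹ * c ^ (n + 1))) (Real.exp c - 1) := by
  have h := exp_series_hasSum_exp' (𝕂 := ℝ) (𝔸 := ℝ) c
  have h2 := (hasSum_nat_add_iff' 1).mpr h
  simpa [Real.exp_eq_exp_ℝ] using h2

private theorem exp_sub_one_alg (c : ℝ) (F : A) :
    HasSum (fun n : ℕ => (((n + 1).factorial : ℝ)⁻¹ * c ^ (n + 1)) • F ^ (n + 1))
      (exp (c • F) - 1) := by
  have h := exp_series_hasSum_exp' (𝕂 := ℝ) (𝔸 := A) (c • F)
  have h2 := (hasSum_nat_add_iff' 1).mpr h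
  simpa [smul_pow, smul_smul] using h2

theorem exp_gen {S : Set A} (hS : ConvSemi S) {F : A} (hF : F ∈ S) {c : ℝ} (hc : 0 ≤ c) :
    ∃ a ∈ S, exp (c • (F - 1)) = Real.exp (-c) • (1 : A) + (1 - Real.exp (-c)) • a := by
  rcases hc.eq_or_lt with hc0 | hc0
  · refine ⟨F, hF, ?_⟩
    subst hc0
    simp [exp_zero]
  · have hpos : 0 < Real.exp c - 1 := by
      have := Real.add_one_lt_exp hc0.ne'
      linarith
    have h1 := (exp_sub_one_real c).tendsto_sum_nat
    have h2 := (exp_sub_one_alg c F).tendsto_sum_nat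
    have h3 := (h1.inv₀ hpos.ne').smul h2
    have hmem : (Real.exp c - 1)⁻¹ • (exp (c • F) - 1) ∈ S := by
      refine hS.closed.mem_of_tendsto h3 ?_
      filter_upwards [eventually_ge_atTop 1] with N hN
      rw [Finset.smul_sum]
      have hu : ∀ n : ℕ, 0 < (((n + 1).factorial : ℝ)⁻¹ * c ^ (n + 1)) := fun n => by positivity
      have hs : 0 < ∑ n ∈ Finset.range N, (((n + 1).factorial : ℝ)⁻¹ * c ^ (n + 1)) := by
        refine Finset.sum_pos (fun n _ => hu n) ?_
        exact ⟨0, Finset.mem_range.mpr hN⟩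
      simp_rw [smul_smul]
      refine hS.convex.sum_mem (fun n _ => ?_) ?_ (fun n _ => pow_succ_mem hS hF n)
      · exact mul_nonneg (inv_nonneg.mpr hs.le) (hu n).le
      · rw [← Finset.mul_sum]
        exact inv_mul_cancel₀ hs.ne'
    refine ⟨_, hmem, ?_⟩
    let +nondep : NormedAlgebra ℚ A := .restrictScalars ℚ ℝ A
    have h4 : c • (F - 1) = c • F + (-c) • (1 : A) := by
      rw [smul_sub, neg_smul, sub_eq_add_neg]
    have h5 : exp (c • (F - 1)) = Real.exp (-c) • exp (c • F) := by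
      rw [h4, exp_add_of_commute, exp_smul_one, mul_smul_comm, mul_one]
      exact (Commute.one_right _).smul_right _
    rw [h5, smul_smul]
    have h6 : (1 - Real.exp (-c)) * (Real.exp c - 1)⁻¹ = Real.exp (-c) := by
      have h7 : Real.exp (-c) * (Real.exp c - 1) = 1 - Real.exp (-c) := by
        rw [mul_sub, ← Real.exp_add]
        simp
      rw [← h7, mul_assoc, mul_inv_cancel₀ hpos.ne', mul_one]
    rw [h6, ← smul_add, add_sub_cancel]

/-- `IsGen S C L`: `L = C • (F - 1)` for some `F ∈ S`. -/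
def IsGen (S : Set A) (C : ℝ) (L : A) : Prop := 0 ≤ C ∧ ∃ F ∈ S, L = C • (F - 1)

/-- A sum of generators is a generator: `C • (F - 1) + C' • (F' - 1) = (C + C') • (F'' - 1)`
with `F'' = (C • F + C' • F') / (C + C')` (if `C + C' = 0` both are `0`). -/
theorem IsGen.add {S : Set A} (hS : ConvSemi S) {C C' : ℝ} {L L' : A} (h : IsGen S C L)
    (h' : IsGen S C' L') : IsGen S (C + C') (L + L') := by
  obtain ⟨hC, F, hF, rfl⟩ := h
  obtain ⟨hC', F', hF', rfl⟩ := h'
  refine ⟨add_nonneg hC hC', ?_⟩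
  rcases (add_nonneg hC hC').eq_or_lt with h0 | h0
  · have h1 : C = 0 := by linarith
    have h2 : C' = 0 := by linarith
    subst h1 h2
    exact ⟨F, hF, by simp⟩
  · refine ⟨(C / (C + C')) • F + (C' / (C + C')) • F', ?_, ?_⟩
    · refine hS.convex hF hF' (by positivity) (by positivity) ?_
      field_simp
    · have h1 : (C + C') * (C / (C + C')) = C := by field_simp
      have h2 : (C + C') * (C' / (C + C')) = C' := by field_simp
      rw [smul_sub (C + C'), smul_add, smul_smul, smul_smul, h1, h2, smul_sub, smul_sub, add_smul]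
      abel

theorem IsGen.zero {S : Set A} (hS : ConvSemi S) : IsGen S 0 (0 : A) := by
  obtain ⟨F, hF⟩ := hS.nonempty
  exact ⟨le_refl _, F, hF, by simp⟩

/-- Finite sums of generators. -/
theorem IsGen.sum {S : Set A} (hS : ConvSemi S) {ι : Type*} (s : Finset ι) (C : ι → ℝ)
    (L : ι → A) (h : ∀ i ∈ s, IsGen S (C i) (L i)) :
    IsGen S (∑ i ∈ s, C i) (∑ i ∈ s, L i) := by
  classical
  induction s using Finset.induction_on with
  | empty => simpa using IsGen.zero hS
  | insert i s hi ih =>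
    rw [Finset.sum_insert hi, Finset.sum_insert hi]
    exact (h i (Finset.mem_insert_self _ _)).add hS
      (ih fun j hj => h j (Finset.mem_insert_of_mem hj))

/-- `‖exp (t • L)‖ ≤ 1` for a generator `L` and `t ≥ 0` (from `exp_gen`). -/
theorem IsGen.norm_exp_le {S : Set A} (hS : ConvSemi S) {C : ℝ} {L : A} (h : IsGen S C L)
    {t : ℝ} (ht : 0 ≤ t) : ‖exp (t • L)‖ ≤ 1 := by
  obtain ⟨hC, F, hF, rfl⟩ := h
  obtain ⟨a, ha, he⟩ := exp_gen hS hF (mul_nonneg ht hC)
  rw [smul_smul, he]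
  have h1 : Real.exp (-(t * C)) ≤ 1 := Real.exp_le_one_iff.mpr (by
    have := mul_nonneg ht hC
    linarith)
  have h0 : 0 < Real.exp (-(t * C)) := Real.exp_pos _
  calc ‖Real.exp (-(t * C)) • (1 : A) + (1 - Real.exp (-(t * C))) • a‖
      ≤ ‖Real.exp (-(t * C)) • (1 : A)‖ + ‖(1 - Real.exp (-(t * C))) • a‖ := norm_add_le _ _
    _ ≤ Real.exp (-(t * C)) * 1 + (1 - Real.exp (-(t * C))) * 1 := by
        rw [norm_smul, norm_smul, Real.norm_of_nonneg h0.le,
          Real.norm_of_nonneg (sub_nonneg.mpr h1)]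
        exact add_le_add (mul_le_mul_of_nonneg_left hS.norm_one h0.le)
          (mul_le_mul_of_nonneg_left (hS.norm_le a ha) (sub_nonneg.mpr h1))
    _ = 1 := by ring

/-- `exp (t • L)` is within `2 exp (-t C)` of `S` (from `exp_gen`). -/
theorem IsGen.exists_near {S : Set A} (hS : ConvSemi S) {C : ℝ} {L : A} (h : IsGen S C L)
    {t : ℝ} (ht : 0 ≤ t) : ∃ a ∈ S, ‖exp (t • L) - a‖ ≤ 2 * Real.exp (-(t * C)) := by
  obtain ⟨hC, F, hF, rfl⟩ := h
  obtain ⟨a, ha, he⟩ := exp_gen hS hF (mul_nonneg ht hC)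
  refine ⟨a, ha, ?_⟩
  rw [smul_smul, he]
  have h0 : 0 < Real.exp (-(t * C)) := Real.exp_pos _
  have h2 : Real.exp (-(t * C)) • (1 : A) + (1 - Real.exp (-(t * C))) • a - a
      = Real.exp (-(t * C)) • (1 - a) := by
    rw [sub_smul, one_smul, smul_sub]
    abel
  rw [h2, norm_smul, Real.norm_of_nonneg h0.le, mul_comm]
  gcongr
  calc ‖(1 : A) - a‖ ≤ ‖(1 : A)‖ + ‖a‖ := norm_sub_le _ _
    _ ≤ 1 + 1 := add_le_add hS.norm_one (hS.norm_le a ha)
    _ = 2 := by norm_num

end LCQG.Semi
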