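import Mathlib
import Pool.Agent.Lib.MP_ea3264_an.S.Gen

/-!
# The choice of the sequences

Given a sequence `ω` in `S`, we choose recursively `f N` and then `g N` in `S` (`N = 0, 1, ...`)
with the properties of `Seqs`: `f N` by (U) for the finite set
`{FN N} ∪ {ω k | k ≤ N} ∪ {g k | k < N}` (for `N = 0` without `FN 0`) and `δ = (1/8)^N`; then
`g N` by (I) for the finite set `{ω k | k ≤ N} ∪ {f k | k ≤ N} ∪ {g k | k < N}` and
`δ = (1/8)^N`. `FN N ∈ S` for `N ≥ 1` because it is a convex combination (`FN_mem`).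

Suggestion for the recursion: a general lemma of the form 'if for every `N` and every
`q : ℕ → A × A` with `∀ k < N, (q k).1 ∈ S ∧ (q k).2 ∈ S` there is `x` with `P N q x`, and
`P N q x` only depends on `q` below `N`, then there is `q` with `P N q (q N)` for all `N`' via
`Nat.strongRec` / `WellFounded.fix`, or recursion on `ℕ` with values in `List (A × A)` or in
`ℕ → A × A` (use `Function.update q N x`).
-/

set_option autoImplicit false
set_option linter.unusedSectionVars false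

open scoped Topology
open Filter NormedSpace

noncomputable section

namespace LCQG.Semi

variable {A : Type*} [NormedRing A] [NormedAlgebra ℝ A] [CompleteSpace A]

/-- `d j = 2^{-j}`. -/
def dj (j : ℕ) : ℝ := (1 / 2) ^ j

/-- The generators `L_N = ∑_{j < N} ((f_j - 1) + 2^{-j} (g_j - 1))`. -/
def LN (f g : ℕ → A) (N : ℕ) : A :=
  ∑ j ∈ Finset.range N, ((f j - 1) + dj j • (g j - 1))

/-- Their total masses `C_N = ∑_{j < N} (1 + 2^{-j})`. -/
def CN (N : ℕ) : ℝ := ∑ j ∈ Finset.range N, (1 + dj j)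

/-- The normalized elements with `L_N = C_N (F_N - 1)`. -/
def FN (f g : ℕ → A) (N : ℕ) : A :=
  (CN N)⁻¹ • ∑ j ∈ Finset.range N, (f j + dj j • g j)

/-- The properties of the sequences. -/
structure Seqs (S : Set A) (ω f g : ℕ → A) : Prop where
  hω : ∀ N, ω N ∈ S
  hf : ∀ N, f N ∈ S
  hg : ∀ N, g N ∈ S
  fF : ∀ N, 1 ≤ N → ‖(f N - 1) * FN f g N‖ ≤ (1 / 8) ^ N
  Ff : ∀ N, 1 ≤ N → ‖FN f g N * (f N - 1)‖ ≤ (1 / 8) ^ N
  fω : ∀ N k, k ≤ N → ‖(f N - 1) * ω k‖ ≤ (1 / 8) ^ N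
  fg : ∀ N k, k < N → ‖(f N - 1) * g k‖ ≤ (1 / 8) ^ N
  ωg : ∀ N k, k ≤ N → ‖(ω k - 1) * g N‖ ≤ (1 / 8) ^ N
  f'g : ∀ N k, k ≤ N → ‖(f k - 1) * g N‖ ≤ (1 / 8) ^ N
  gg : ∀ N k, k < N → ‖(g k - 1) * g N‖ ≤ (1 / 8) ^ N

theorem dj_pos (j : ℕ) : 0 < dj j := by
  unfold dj; positivity

theorem le_CN (N : ℕ) : (N : ℝ) ≤ CN N := by
  unfold CN
  calc (N : ℝ) = ∑ _j ∈ Finset.range N, (1 : ℝ) := by simp
    _ ≤ ∑ j ∈ Finset.range N, (1 + dj j) :=
        Finset.sum_le_sum fun j _ => by linarith [dj_pos j]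

private theorem CN_pos {N : ℕ} (hN : 1 ≤ N) : 0 < CN N := by
  have h1 : (1 : ℝ) ≤ N := by exact_mod_cast hN
  linarith [le_CN N]

theorem FN_mem {S : Set A} (hS : ConvSemi S) {f g : ℕ → A} {N : ℕ} (hN : 1 ≤ N)
    (hf : ∀ j < N, f j ∈ S) (hg : ∀ j < N, g j ∈ S) : FN f g N ∈ S := by
  have hC := CN_pos hN
  have h1 : FN f g N = ∑ j ∈ Finset.range N,
      ((CN N)⁻¹ * (1 + dj j)) • ((1 / (1 + dj j)) • f j + (dj j / (1 + dj j)) • g j) := by
    unfold FN
    rw [Finset.smul_sum]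
    refine Finset.sum_congr rfl fun j _ => ?_
    have hd := dj_pos j
    rw [mul_smul]
    congr 1
    rw [smul_add, smul_smul, smul_smul]
    have h2 : (1 + dj j) * (1 / (1 + dj j)) = 1 := by field_simp
    have h3 : (1 + dj j) * (dj j / (1 + dj j)) = dj j := by field_simp
    rw [h2, h3, one_smul]
  rw [h1]
  refine hS.convex.sum_mem (fun j _ => ?_) ?_ (fun j hj => ?_)
  · have hd := dj_pos j
    positivity
  · rw [← Finset.mul_sum]
    exact inv_mul_cancel₀ hC.ne'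
  · have hj' : j < N := Finset.mem_range.mp hj
    have hd := dj_pos j
    refine hS.convex (hf j hj') (hg j hj') (by positivity) (by positivity) ?_
    field_simp

theorem LN_eq {f g : ℕ → A} {N : ℕ} (hN : 1 ≤ N) : LN f g N = CN N • (FN f g N - 1) := by
  have hC := CN_pos hN
  have h1 : CN N • (1 : A) = ∑ j ∈ Finset.range N, (1 + dj j) • (1 : A) := by
    unfold CN
    rw [Finset.sum_smul]
  unfold LN FN
  rw [smul_sub, smul_smul, mul_inv_cancel₀ hC.ne', one_smul, h1, ← Finset.sum_sub_distrib]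
  refine Finset.sum_congr rfl fun j _ => ?_
  rw [smul_sub, add_smul, one_smul]
  abel

theorem LN_isGen {S : Set A} (hS : ConvSemi S) {f g : ℕ → A} (hf : ∀ j, f j ∈ S)
    (hg : ∀ j, g j ∈ S) (N : ℕ) : IsGen S (CN N) (LN f g N) := by
  unfold CN LN
  refine IsGen.sum hS (Finset.range N) (fun j => 1 + dj j)
    (fun j => (f j - 1) + dj j • (g j - 1)) (fun j _ => ?_)
  exact IsGen.add hS ⟨zero_le_one, f j, hf j, (one_smul _ _).symm⟩
    ⟨(dj_pos j).le, g j, hg j, rfl⟩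

open Classical in
private def stepF {X : Type*} [Nonempty X] (P : ℕ → (ℕ → X) → X → Prop) (N : ℕ)
    (ih : ∀ m, m < N → X) : X :=
  if h : ∃ x, P N (fun k => if hk : k < N then ih k hk else Classical.arbitrary X) x then
    h.choose else Classical.arbitrary X

private theorem exists_rec {X : Type*} [Nonempty X] (P : ℕ → (ℕ → X) → X → Prop)
    (hloc : ∀ N q q' x, (∀ k < N, q k = q' k) → P N q x → P N q' x)
    (hex : ∀ N q, (∀ k < N, P k q (q k)) → ∃ x, P N q x) : ∃ q : ℕ → X, ∀ N, P N q (q N) := by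
  classical
  let q : ℕ → X := fun N => Nat.strongRec (motive := fun _ => X) (fun N ih => stepF P N ih) N
  have hq : ∀ N, q N = stepF P N (fun m _ => q m) := by
    intro N
    show Nat.strongRec (motive := fun _ => X) (fun N ih => stepF P N ih) N = _
    rw [Nat.strongRec]
  refine ⟨q, fun N => ?_⟩
  induction N using Nat.strong_induction_on with
  | _ N ih =>
    obtain ⟨x, hx⟩ := hex N q ih
    have h1 : ∀ k < N, q k = (fun k => if hk : k < N then (fun m (_ : m < N) => q m) k hk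
        else Classical.arbitrary X) k := by
      intro k hk
      simp [hk]
    have h2 : ∃ x, P N (fun k => if hk : k < N then (fun m (_ : m < N) => q m) k hk
        else Classical.arbitrary X) x := ⟨x, hloc N _ _ x h1 hx⟩
    have h3 : q N = h2.choose := by
      rw [hq N, stepF, dif_pos h2]
    rw [h3]
    exact hloc N _ _ _ (fun k hk => (h1 k hk).symm) h2.choose_spec

theorem exists_seqs {S : Set A} (hS : ConvSemi S)
    (hU : ∀ F : Set A, F.Finite → F ⊆ S → ∀ δ : ℝ, 0 < δ →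
      ∃ f ∈ S, ∀ a ∈ F, ‖f * a - a‖ ≤ δ ∧ ‖a * f - a‖ ≤ δ)
    (hI : ∀ F : Set A, F.Finite → F ⊆ S → ∀ δ : ℝ, 0 < δ →
      ∃ g ∈ S, ∀ a ∈ F, ‖a * g - g‖ ≤ δ)
    (ω : ℕ → A) (hω : ∀ N, ω N ∈ S) : ∃ f g : ℕ → A, Seqs S ω f g := by
  have hmain := exists_rec (X := A × A) (fun N q x =>
    x.1 ∈ S ∧ x.2 ∈ S ∧
    (1 ≤ N → ‖(x.1 - 1) * FN (fun j => (q j).1) (fun j => (q j).2) N‖ ≤ (1 / 8) ^ N) ∧
    (1 ≤ N → ‖FN (fun j => (q j).1) (fun j => (q j).2) N * (x.1 - 1)‖ ≤ (1 / 8) ^ N) ∧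
    (∀ k, k ≤ N → ‖(x.1 - 1) * ω k‖ ≤ (1 / 8) ^ N) ∧
    (∀ k, k < N → ‖(x.1 - 1) * (q k).2‖ ≤ (1 / 8) ^ N) ∧
    (∀ k, k ≤ N → ‖(ω k - 1) * x.2‖ ≤ (1 / 8) ^ N) ∧
    (∀ k, k < N → ‖((q k).1 - 1) * x.2‖ ≤ (1 / 8) ^ N) ∧
    ‖(x.1 - 1) * x.2‖ ≤ (1 / 8) ^ N ∧
    (∀ k, k < N → ‖((q k).2 - 1) * x.2‖ ≤ (1 / 8) ^ N))
  have hmain2 := hmain ?_ ?_
  · obtain ⟨q, hq⟩ := hmain2
    refine ⟨fun N => (q N).1, fun N => (q N).2, hω, fun N => (hq N).1, fun N => (hq N).2.1,
      fun N => (hq N).2.2.1, fun N => (hq N).2.2.2.1, fun N => (hq N).2.2.2.2.1,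
      fun N => (hq N).2.2.2.2.2.1, fun N => (hq N).2.2.2.2.2.2.1, ?_,
      fun N => (hq N).2.2.2.2.2.2.2.2.2⟩
    intro N k hk
    rcases hk.eq_or_lt with h | h
    · subst h
      exact (hq k).2.2.2.2.2.2.2.2.1
    · exact (hq N).2.2.2.2.2.2.2.1 k h
  · rintro N q q' x hqq ⟨h1, h2, h3, h4, h5, h6, h7, h8, h9, h10⟩
    have hFN : FN (fun j => (q j).1) (fun j => (q j).2) N
        = FN (fun j => (q' j).1) (fun j => (q' j).2) N := by
      unfold FN
      congr 1
      refine Finset.sum_congr rfl fun j hj => ?_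
      have hj' := hqq j (Finset.mem_range.mp hj)
      show (q j).1 + dj j • (q j).2 = (q' j).1 + dj j • (q' j).2
      rw [hj']
    rw [hFN] at h3 h4
    refine ⟨h1, h2, h3, h4, h5, fun k hk => ?_, h7, fun k hk => ?_, h9, fun k hk => ?_⟩
    · rw [← hqq k hk]
      exact h6 k hk
    · rw [← hqq k hk]
      exact h8 k hk
    · rw [← hqq k hk]
      exact h10 k hk
  · intro N q hP
    have hδ : (0 : ℝ) < (1 / 8) ^ N := by positivity
    obtain ⟨f, hf, hfF⟩ := hU
      ({a | 1 ≤ N ∧ a = FN (fun j => (q j).1) (fun j => (q j).2) N} ∪ ω '' Set.Iic N ∪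
        (fun k => (q k).2) '' Set.Iio N) (by
        refine ((Set.Finite.subset (Set.finite_singleton
          (FN (fun j => (q j).1) (fun j => (q j).2) N)) ?_).union
          ((Set.finite_Iic N).image _)).union ((Set.finite_Iio N).image _)
        rintro a ⟨-, rfl⟩
        exact Set.mem_singleton _) (by
        rintro a ((⟨hN, rfl⟩ | ⟨k, -, rfl⟩) | ⟨k, hk, rfl⟩)
        · exact FN_mem hS hN (fun j hj => (hP j hj).1) (fun j hj => (hP j hj).2.1)
        · exact hω k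
        · exact (hP k hk).2.1) _ hδ
    obtain ⟨g, hg, hgF⟩ := hI
      (ω '' Set.Iic N ∪ (fun k => (q k).1) '' Set.Iio N ∪ {f} ∪
        (fun k => (q k).2) '' Set.Iio N) (by
        exact ((((Set.finite_Iic N).image _).union ((Set.finite_Iio N).image _)).union
          (Set.finite_singleton f)).union ((Set.finite_Iio N).image _)) (by
        rintro a (((⟨k, -, rfl⟩ | ⟨k, hk, rfl⟩) | rfl) | ⟨k, hk, rfl⟩)
        · exact hω k
        · exact (hP k hk).1
        · exact hf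
        · exact (hP k hk).2.1) _ hδ
    refine ⟨(f, g), hf, hg, fun hN => ?_, fun hN => ?_, fun k hk => ?_, fun k hk => ?_,
      fun k hk => ?_, fun k hk => ?_, ?_, fun k hk => ?_⟩
    · have h := (hfF _ (Or.inl (Or.inl ⟨hN, rfl⟩))).1
      simpa [sub_mul] using h
    · have h := (hfF _ (Or.inl (Or.inl ⟨hN, rfl⟩))).2
      simpa [mul_sub] using h
    · have h := (hfF _ (Or.inl (Or.inr ⟨k, hk, rfl⟩))).1
      simpa [sub_mul] using h
    · have h := (hfF _ (Or.inr ⟨k, hk, rfl⟩)).1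
      simpa [sub_mul] using h
    · have h := hgF _ (Or.inl (Or.inl (Or.inl ⟨k, hk, rfl⟩)))
      simpa [sub_mul] using h
    · have h := hgF _ (Or.inl (Or.inl (Or.inr ⟨k, hk, rfl⟩)))
      simpa [sub_mul] using h
    · have h := hgF _ (Or.inl (Or.inr rfl))
      simpa [sub_mul] using h
    · have h := hgF _ (Or.inr ⟨k, hk, rfl⟩)
      simpa [sub_mul] using h

end LCQG.Semi
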