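import Mathlib
import Pool.Agent.Lib.MP_ea3264_an.S.Duhamel
import Pool.Agent.Lib.MP_ea3264_an.S.Seqs

/-!
# Asymptotic invariance

Let `n < N`. Put `B' = ∑_{j<n} ((f_j - 1) + d_j (g_j - 1)) + ∑_{n ≤ j < N} (f_j - 1)`, a generator,
`G = ∑_{n ≤ m < N} d_m g_m`, `D = ∑_{n ≤ m < N} d_m ≥ d_n`, so that `L_N = (B' - D • 1) + G`.

`norm_B'_mul_g`: for `n ≤ m < N`, `‖B' * g_m‖ ≤ 3 (m + 1) (1/8)^m`: the terms with `j < n` and
those `(f_j - 1)` with `j ≤ m` are bounded by `(1/8)^m` each (`Seqs.f'g`, `Seqs.gg`; there are at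
most `2 n + (m - n + 1) ≤ 2 m + 1` of them), those with `j > m` by `(1/8)^j` (`Seqs.fg`), in total
`(1/8)^m / 7`.

Hence (`norm_exp_mul_sub_le`) `‖exp (s • B') * g_m - g_m‖ ≤ 3 s (m + 1) (1/8)^m` and, for
`k ≤ n`, with `v = ω_k - 1`, `‖v‖ ≤ 2`, `‖v * g_m‖ ≤ (1/8)^m` (`Seqs.ωg`):
`‖v * exp (s • B') * G‖ ≤ ∑_{n ≤ m < N} d_m ((1/8)^m + 6 s (m + 1) (1/8)^m) = a + b s` with
`a = ∑ d_m (1/8)^m`, `b = ∑ 6 (m + 1) d_m (1/8)^m`.

`duhamel_left` with `v`, `w = 1`, `X = B' - D • 1` (`exp (s • X) = exp (-s D) • exp (s • B')`),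
`G`: the integrand is `≤ exp (-s D) (a + b s)` (`‖exp ((t - s) • L_N)‖ ≤ 1`), which is the
derivative of `B s = -(a / D + b / D² + b s / D) exp (-s D)`; so
`‖v exp (t L_N) - v exp (t X)‖ ≤ a / D + b / D² ≤ a / d_n + b / d_n²
  ≤ ∑_{m ≥ n} 16^{-m} (2^n + 6 (m+1) 4^n) ≤ 7 · 4^n ∑_{m ≥ n} 8^{-m} = 8 · 4^n 8^{-n} = 8 · 2^{-n}`
(using `m + 1 ≤ 2^m`), and `‖v exp (t X)‖ ≤ 2 exp (-t D) ≤ 2 exp (-t d_n)`.
-/

set_option autoImplicit false

open scoped Topology
open Filter NormedSpace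

noncomputable section

namespace LCQG.Semi

variable {A : Type*} [NormedRing A] [NormedAlgebra ℝ A] [CompleteSpace A]

/-- The part of `L_N` without the jumps `g_m`, `m ≥ n`. -/
def BN (f g : ℕ → A) (n N : ℕ) : A :=
  ∑ j ∈ Finset.range n, ((f j - 1) + dj j • (g j - 1)) + ∑ j ∈ Finset.Ico n N, (f j - 1)

/-- The jumps `g_m`, `n ≤ m < N`. -/
def GN (g : ℕ → A) (n N : ℕ) : A := ∑ m ∈ Finset.Ico n N, dj m • g m

/-- Their total rate. -/
def DN (n N : ℕ) : ℝ := ∑ m ∈ Finset.Ico n N, dj m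

theorem LN_split {f g : ℕ → A} {n N : ℕ} (hn : n ≤ N) :
    LN f g N = (BN f g n N - DN n N • (1 : A)) + GN g n N := by
  unfold LN BN DN GN
  rw [← Finset.sum_range_add_sum_Ico _ hn]
  have h1 : ∑ j ∈ Finset.Ico n N, ((f j - 1) + dj j • (g j - 1)) =
      ∑ j ∈ Finset.Ico n N, (f j - 1) +
        (∑ j ∈ Finset.Ico n N, dj j • g j - (∑ j ∈ Finset.Ico n N, dj j) • (1 : A)) := by
    rw [Finset.sum_add_distrib, Finset.sum_smul, ← Finset.sum_sub_distrib]
    congr 1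
    refine Finset.sum_congr rfl fun j _ => ?_
    rw [smul_sub]
  rw [h1]
  abel

private theorem geo_le (a b : ℕ) : ∑ j ∈ Finset.Ico a b, ((1 : ℝ) / 8) ^ j ≤
    8 / 7 * (1 / 8) ^ a := by
  rcases le_total b a with h | h
  · rw [Finset.Ico_eq_empty_of_le h, Finset.sum_empty]
    positivity
  · have key : ∀ b, a ≤ b → ∑ j ∈ Finset.Ico a b, ((1 : ℝ) / 8) ^ j =
        8 / 7 * ((1 / 8) ^ a - (1 / 8) ^ b) := by
      intro b hb
      induction b, hb using Nat.le_induction with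
      | base => simp
      | succ b hb ih =>
        rw [Finset.sum_Ico_succ_top hb, ih, pow_succ]
        ring
    rw [key b h]
    have : (0 : ℝ) ≤ (1 / 8) ^ b := by positivity
    linarith

private theorem dj_le_one (j : ℕ) : dj j ≤ 1 := by
  unfold dj
  exact pow_le_one₀ (by norm_num) (by norm_num)

theorem norm_BN_mul_le {S : Set A} (hS : ConvSemi S) {ω f g : ℕ → A} (h : Seqs S ω f g)
    {n N m : ℕ} (hn : n ≤ m) (hm : m < N) :
    ‖BN f g n N * g m‖ ≤ 3 * (m + 1) * (1 / 8) ^ m := by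
  unfold BN
  have hp : (0 : ℝ) ≤ (1 / 8) ^ m := by positivity
  rw [add_mul, Finset.sum_mul, Finset.sum_mul,
    ← Finset.sum_Ico_consecutive _ (show n ≤ m + 1 by omega) (show m + 1 ≤ N by omega)]
  have h1 : ‖∑ j ∈ Finset.range n, ((f j - 1) + dj j • (g j - 1)) * g m‖ ≤
      n * (2 * (1 / 8) ^ m) := by
    refine (norm_sum_le_of_le _ (fun j hj => ?_)).trans_eq (b := ∑ j ∈ Finset.range n, 2 * (1 / 8) ^ m) (by simp)
    rw [Finset.mem_range] at hj
    rw [add_mul, smul_mul_assoc]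
    have h2 := h.f'g m j (by omega)
    have h3 := h.gg m j (by omega)
    have h4 : ‖dj j • ((g j - 1) * g m)‖ ≤ (1 / 8) ^ m := by
      rw [norm_smul, Real.norm_eq_abs, abs_of_pos (dj_pos j)]
      have := dj_le_one j
      have := norm_nonneg ((g j - 1) * g m)
      have := dj_pos j
      nlinarith
    refine (norm_add_le _ _).trans ?_
    linarith
  have h2 : ‖∑ j ∈ Finset.Ico n (m + 1), (f j - 1) * g m‖ ≤ ((m + 1 - n : ℕ) : ℝ) * (1 / 8) ^ m := by
    refine (norm_sum_le_of_le _ (fun j hj => ?_)).trans_eq (b := ∑ j ∈ Finset.Ico n (m + 1), (1 / 8) ^ m) (by simp)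
    rw [Finset.mem_Ico] at hj
    exact h.f'g m j (by omega)
  have h3 : ‖∑ j ∈ Finset.Ico (m + 1) N, (f j - 1) * g m‖ ≤ (1 / 8) ^ m := by
    refine (norm_sum_le_of_le _ (fun j hj => ?_)).trans (b := ∑ j ∈ Finset.Ico (m + 1) N, ((1 : ℝ) / 8) ^ j) ?_
    · rw [Finset.mem_Ico] at hj
      exact h.fg j m (by omega)
    · refine (geo_le _ _).trans ?_
      rw [pow_succ]
      linarith
  have h4 : ((m + 1 - n : ℕ) : ℝ) = m + 1 - n := by
    rw [Nat.cast_sub (by omega)]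
    push_cast
    ring
  have h5 : (n : ℝ) ≤ m := by exact_mod_cast hn
  have h6 := norm_add₃_le (a := ∑ j ∈ Finset.range n, ((f j - 1) + dj j • (g j - 1)) * g m)
    (b := ∑ j ∈ Finset.Ico n (m + 1), (f j - 1) * g m)
    (c := ∑ j ∈ Finset.Ico (m + 1) N, (f j - 1) * g m)
  rw [← add_assoc]
  rw [h4] at h2
  refine h6.trans ?_
  have h7 : (n : ℝ) * (2 * (1 / 8) ^ m) + (m + 1 - n) * (1 / 8) ^ m + (1 / 8) ^ m =
      (n + m + 2) * (1 / 8) ^ m := by ring
  have h8 : ((n : ℝ) + m + 2) * (1 / 8) ^ m ≤ 3 * (m + 1) * (1 / 8) ^ m := by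
    apply mul_le_mul_of_nonneg_right _ hp
    have : (0 : ℝ) ≤ m := Nat.cast_nonneg _
    linarith
  linarith

private theorem BN_isGen {S : Set A} (hS : ConvSemi S) {ω f g : ℕ → A} (h : Seqs S ω f g)
    (n N : ℕ) : ∃ C, IsGen S C (BN f g n N) := by
  have h1 : ∀ j, IsGen S 1 (f j - 1) := fun j => ⟨zero_le_one, f j, h.hf j, by rw [one_smul]⟩
  have h2 : ∀ j, IsGen S (dj j) (dj j • (g j - 1)) := fun j =>
    ⟨(dj_pos j).le, g j, h.hg j, rfl⟩
  exact ⟨_, (IsGen.sum hS (Finset.range n) _ _ fun j _ => (h1 j).add hS (h2 j)).add hS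
    (IsGen.sum hS (Finset.Ico n N) _ _ fun j _ => h1 j)⟩

private theorem exp_shift (L : A) (D s : ℝ) :
    exp (s • (L - D • (1 : A))) = Real.exp (-(s * D)) • exp (s • L) := by
  let _ : NormedAlgebra ℚ A := NormedAlgebra.restrictScalars ℚ ℝ A
  have h1 : s • (L - D • (1 : A)) = s • L + algebraMap ℝ A (-(s * D)) := by
    rw [Algebra.algebraMap_eq_smul_one, smul_sub, smul_smul, neg_smul, sub_eq_add_neg]
  rw [h1, exp_add_of_commute (Algebra.commutes (-(s * D)) (s • L)).symm,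
    ← algebraMap_exp_comm, ← Real.exp_eq_exp_ℝ, Algebra.algebraMap_eq_smul_one, mul_smul_comm,
    mul_one]

theorem invar_le {S : Set A} (hS : ConvSemi S) {ω f g : ℕ → A} (h : Seqs S ω f g)
    {k n N : ℕ} (hk : k ≤ n) (hn : n < N) {t : ℝ} (ht : 0 ≤ t) :
    ‖(ω k - 1) * exp (t • LN f g N)‖ ≤
      2 * Real.exp (-(t * dj n)) + 8 * (1 / 2) ^ n := by
  set v : A := ω k - 1 with hv
  have hv2 : ‖v‖ ≤ 2 := by
    refine (norm_sub_le _ _).trans ?_
    have := hS.norm_le _ (h.hω k)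
    have := hS.norm_one
    linarith
  obtain ⟨CB, hB⟩ := BN_isGen hS h n N
  have hBexp : ∀ s : ℝ, 0 ≤ s → ‖exp (s • BN f g n N)‖ ≤ 1 := fun s hs => hB.norm_exp_le hS hs
  have hLexp : ∀ s : ℝ, 0 ≤ s → ‖exp (s • LN f g N)‖ ≤ 1 := fun s hs =>
    (LN_isGen hS h.hf h.hg N).norm_exp_le hS hs
  set D : ℝ := DN n N with hD
  have hdn : dj n ≤ D := by
    rw [hD]
    unfold DN
    exact Finset.single_le_sum (f := dj) (fun j _ => (dj_pos j).le) (Finset.mem_Ico.2 ⟨le_rfl, hn⟩)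
  have hd0 := dj_pos n
  have hD0 : 0 < D := hd0.trans_le hdn
  -- the bound for one jump
  have hone : ∀ s : ℝ, 0 ≤ s → ∀ m, n ≤ m → m < N → ‖v * exp (s • BN f g n N) * g m‖ ≤
      (1 / 8) ^ m + s * (6 * (m + 1) * (1 / 8) ^ m) := by
    intro s hs m hm1 hm2
    have e1 := norm_exp_mul_sub_le (BN f g n N) (g m) (norm_BN_mul_le hS h hm1 hm2) hs hBexp
    have e2 := h.ωg m k (hk.trans hm1)
    have e3 : v * exp (s • BN f g n N) * g m =
        v * g m + v * (exp (s • BN f g n N) * g m - g m) := by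
      rw [mul_sub, ← mul_assoc]
      abel
    rw [e3]
    refine (norm_add_le _ _).trans ?_
    have e4 : ‖v * (exp (s • BN f g n N) * g m - g m)‖ ≤ 2 * (s * (3 * (m + 1) * (1 / 8) ^ m)) := by
      refine (norm_mul_le _ _).trans ?_
      exact mul_le_mul hv2 e1 (norm_nonneg _) (by norm_num)
    have e5 : 2 * (s * (3 * ((m : ℝ) + 1) * (1 / 8) ^ m)) = s * (6 * (m + 1) * (1 / 8) ^ m) := by ring
    linarith
  set a : ℝ := ∑ m ∈ Finset.Ico n N, dj m * (1 / 8) ^ m with ha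
  set b : ℝ := ∑ m ∈ Finset.Ico n N, dj m * (6 * (m + 1) * (1 / 8) ^ m) with hb
  have ha0 : 0 ≤ a := Finset.sum_nonneg fun m _ => mul_nonneg (dj_pos m).le (by positivity)
  have hb0 : 0 ≤ b := Finset.sum_nonneg fun m _ => mul_nonneg (dj_pos m).le (by positivity)
  have hG : ∀ s : ℝ, 0 ≤ s → ‖v * exp (s • BN f g n N) * GN g n N‖ ≤ a + b * s := by
    intro s hs
    unfold GN
    rw [Finset.mul_sum]
    refine (norm_sum_le_of_le _ (fun m hm => ?_)).trans_eq
      (b := ∑ m ∈ Finset.Ico n N, (dj m * (1 / 8) ^ m + dj m * (6 * (m + 1) * (1 / 8) ^ m) * s)) ?_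
    · rw [Finset.mem_Ico] at hm
      rw [mul_smul_comm, norm_smul, Real.norm_eq_abs, abs_of_pos (dj_pos m)]
      refine (mul_le_mul_of_nonneg_left (hone s hs m hm.1 hm.2) (dj_pos m).le).trans_eq ?_
      ring
    · rw [Finset.sum_add_distrib, ← Finset.sum_mul]
  set X : A := BN f g n N - D • (1 : A) with hX
  have hsplit : LN f g N = X + GN g n N := LN_split hn.le
  have hexpX : ∀ s : ℝ, exp (s • X) = Real.exp (-(s * D)) • exp (s • BN f g n N) := fun s =>
    exp_shift _ _ _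
  have hder : ∀ s : ℝ, HasDerivAt (fun s : ℝ => -(a / D + b / D ^ 2 + b * s / D) * Real.exp (-(s * D)))
      ((a + b * s) * Real.exp (-(s * D))) s := by
    intro s
    have d1 : HasDerivAt (fun s : ℝ => -(a / D + b / D ^ 2 + b * s / D)) (-(b / D)) s := by
      have := ((((hasDerivAt_id s).const_mul b).div_const D).const_add (a / D + b / D ^ 2)).neg
      rw [mul_one] at this
      exact this
    have d2 : HasDerivAt (fun s : ℝ => Real.exp (-(s * D))) (Real.exp (-(s * D)) * (-D)) s := by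
      have := (((hasDerivAt_id s).mul_const D).neg).exp
      rw [one_mul] at this
      exact this
    refine (d1.mul d2).congr_deriv ?_
    field_simp
    ring
  have hduh := duhamel_left v 1 X (GN g n N) ht
    (fun s : ℝ => -(a / D + b / D ^ 2 + b * s / D) * Real.exp (-(s * D)))
    (fun s : ℝ => (a + b * s) * Real.exp (-(s * D))) hder (by
      intro s hs
      rw [← hsplit, mul_one, hexpX, mul_smul_comm, smul_mul_assoc, smul_mul_assoc, norm_smul,
        Real.norm_eq_abs, abs_of_pos (Real.exp_pos _), mul_comm]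
      refine mul_le_mul_of_nonneg_right ?_ (Real.exp_pos _).le
      refine (norm_mul_le _ _).trans ?_
      have e1 := hG s hs.1
      have e2 := hLexp (t - s) (sub_nonneg.2 hs.2)
      nlinarith [norm_nonneg (v * exp (s • BN f g n N) * GN g n N),
        norm_nonneg (exp ((t - s) • LN f g N))])
  rw [← hsplit, mul_one, mul_one] at hduh
  simp only [mul_zero, zero_div, add_zero, zero_mul, neg_zero, Real.exp_zero, mul_one] at hduh
  have hX2 : ‖v * exp (t • X)‖ ≤ 2 * Real.exp (-(t * dj n)) := by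
    rw [hexpX, mul_smul_comm, norm_smul, Real.norm_eq_abs, abs_of_pos (Real.exp_pos _), mul_comm]
    refine mul_le_mul ?_ ?_ (Real.exp_pos _).le (by norm_num)
    · refine (norm_mul_le _ _).trans ?_
      nlinarith [hBexp t ht, norm_nonneg v, norm_nonneg (exp (t • BN f g n N))]
    · refine Real.exp_le_exp.2 (neg_le_neg (mul_le_mul_of_nonneg_left hdn ht))
  have hneg : -(a / D + b / D ^ 2 + b * t / D) * Real.exp (-(t * D)) ≤ 0 := by
    have e1 : 0 ≤ a / D + b / D ^ 2 + b * t / D := by positivity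
    have e2 := Real.exp_pos (-(t * D))
    nlinarith
  have hab : a / D + b / D ^ 2 ≤ 8 * (1 / 2) ^ n := by
    have e1 : a / D ≤ a / dj n := div_le_div_of_nonneg_left ha0 hd0 hdn
    have e2 : b / D ^ 2 ≤ b / dj n ^ 2 :=
      div_le_div_of_nonneg_left hb0 (by positivity) (pow_le_pow_left₀ hd0.le hdn 2)
    have e3 : a / dj n ≤ 4 ^ n * ∑ m ∈ Finset.Ico n N, ((1 : ℝ) / 8) ^ m := by
      rw [ha, div_eq_inv_mul, Finset.mul_sum, Finset.mul_sum]
      refine Finset.sum_le_sum fun m _ => ?_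
      have f1 : (dj n)⁻¹ ≤ 4 ^ n := by
        unfold dj
        rw [one_div, inv_pow, inv_inv]
        exact pow_le_pow_left₀ (by norm_num) (by norm_num) n
      have f2 : dj m * (1 / 8) ^ m ≤ (1 / 8) ^ m := by
        have := dj_le_one m
        have : (0 : ℝ) ≤ (1 / 8) ^ m := by positivity
        nlinarith
      exact mul_le_mul f1 f2 (mul_nonneg (dj_pos m).le (by positivity)) (by positivity)
    have e4 : b / dj n ^ 2 ≤ 6 * 4 ^ n * ∑ m ∈ Finset.Ico n N, ((1 : ℝ) / 8) ^ m := by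
      rw [hb, div_eq_inv_mul, Finset.mul_sum, Finset.mul_sum]
      refine Finset.sum_le_sum fun m _ => ?_
      have f1 : (dj n ^ 2)⁻¹ = 4 ^ n := by
        unfold dj
        rw [one_div, inv_pow, inv_pow, inv_inv, ← pow_mul, mul_comm, pow_mul]
        norm_num
      have f2 : dj m * (m + 1) ≤ 1 := by
        unfold dj
        have g1 : ((m : ℝ) + 1) ≤ 2 ^ m := by
          have : m + 1 ≤ 2 ^ m := Nat.lt_two_pow_self
          exact_mod_cast this
        rw [one_div, inv_pow]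
        rw [inv_mul_le_iff₀ (by positivity), mul_one]
        exact g1
      rw [f1]
      have f3 : (0 : ℝ) ≤ 4 ^ n * (1 / 8) ^ m := by positivity
      calc (4 : ℝ) ^ n * (dj m * (6 * (m + 1) * (1 / 8) ^ m)) =
          6 * (dj m * (m + 1)) * (4 ^ n * (1 / 8) ^ m) := by ring
        _ ≤ 6 * 1 * (4 ^ n * (1 / 8) ^ m) := by
          apply mul_le_mul_of_nonneg_right _ f3
          linarith
        _ = 6 * 4 ^ n * (1 / 8) ^ m := by ring
    have e5 := geo_le n N
    have e6 : (7 : ℝ) * 4 ^ n * (8 / 7 * (1 / 8) ^ n) = 8 * (1 / 2) ^ n := by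
      have : (4 : ℝ) ^ n * (1 / 8) ^ n = (1 / 2) ^ n := by
        rw [← mul_pow]
        norm_num
      calc (7 : ℝ) * 4 ^ n * (8 / 7 * (1 / 8) ^ n) = 8 * (4 ^ n * (1 / 8) ^ n) := by ring
        _ = _ := by rw [this]
    have e7 : (7 : ℝ) * 4 ^ n * ∑ m ∈ Finset.Ico n N, ((1 : ℝ) / 8) ^ m ≤
        7 * 4 ^ n * (8 / 7 * (1 / 8) ^ n) := mul_le_mul_of_nonneg_left e5 (by positivity)
    linarith
  have htri : ‖v * exp (t • LN f g N)‖ ≤
      ‖v * exp (t • LN f g N) - v * exp (t • X)‖ + ‖v * exp (t • X)‖ := by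
    have := norm_add_le (v * exp (t • LN f g N) - v * exp (t • X)) (v * exp (t • X))
    rwa [sub_add_cancel] at this
  linarith

end LCQG.Semi
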