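import Mathlib
import Pool.Agent.Lib.MP_ea3264_an.S.Gen
import Pool.Agent.Lib.MP_ea3264_an.S.Duhamel

/-!
# The perturbation estimate

Let `F, f ∈ S`, `C ≥ 1`, `L = C • (F - 1)`, `Y = f - 1`, `‖Y * F‖ ≤ δ`, `‖F * Y‖ ≤ δ`. Then
`‖exp (t • (L + Y)) - exp (t • L)‖ ≤ (1 + t) δ + 2 exp (-t C)`.

Proof. All of `exp (s • L)`, `exp (s • Y)`, `exp (s • (L + Y))`, `s ≥ 0`, have norm `≤ 1`
(`IsGen.norm_exp_le`; `Y = 1 • (f - 1)`; `L + Y` by `IsGen.add`).
(1) `‖Y * (exp (s • L) - exp (-s C) • 1)‖ ≤ δ`: `duhamel_left` with `v = Y`, `w = 1`,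
`X = -C • 1`, `G = C • F` (`X + G = L`): the integrand is
`‖Y * exp (-u C) • (C • F) * exp ((s - u) • L)‖ ≤ C exp (-u C) δ`, `B u = -δ exp (-u C)`, and
`B s - B 0 ≤ δ`.
(2) `‖(exp (r • (L + Y)) - exp (-r C) • exp (r • Y)) * Y‖ ≤ δ`: `duhamel_right` with `v = 1`,
`w = Y`, `X = Y - C • 1`, `G = C • F` (`X + G = L + Y`; `exp (u • X) = exp (-u C) • exp (u • Y)`):
the integrand is `‖exp ((r - u) • (L + Y)) * (C • F) * exp (-u C) • exp (u • Y) * Y‖ ≤
C exp (-u C) ‖F * Y‖` since `exp (u • Y)` commutes with `Y` and has norm `≤ 1`.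
(3) Let `Φ r = exp ((t - r) • (L + Y)) * exp (r • L)` and
`Ψ r = exp (-t C) • exp ((t - r) • Y)`. Then
`Φ' - Ψ' = -(exp ((t-r)•(L+Y)) * (Y * (exp (r•L) - exp (-r C)•1))
  + exp (-r C) • ((exp ((t-r)•(L+Y)) - exp (-(t-r) C) • exp ((t-r)•Y)) * Y))`,
which has norm `≤ δ + exp (-r C) δ` by (1), (2). So
`‖(Φ - Ψ) t - (Φ - Ψ) 0‖ ≤ δ t + δ / C ≤ (1 + t) δ` and
`‖Ψ t - Ψ 0‖ = exp (-t C) ‖1 - exp (t • Y)‖ ≤ 2 exp (-t C)`; `Φ 0 = exp (t • (L + Y))`,
`Φ t = exp (t • L)`.
-/

set_option autoImplicit false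

open scoped Topology
open Filter NormedSpace

noncomputable section

namespace LCQG.Semi

variable {A : Type*} [NormedRing A] [NormedAlgebra ℝ A] [CompleteSpace A]

omit [CompleteSpace A] in
private theorem exp_smul_one' (c : ℝ) : exp (c • (1 : A)) = Real.exp c • (1 : A) := by
  have h := algebraMap_exp_comm (𝕂 := ℝ) (𝔸 := A) c
  rw [← Real.exp_eq_exp_ℝ] at h
  rw [← Algebra.algebraMap_eq_smul_one, ← h, Algebra.algebraMap_eq_smul_one]

private theorem exp_sub_smul_one (x : A) (c : ℝ) :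
    exp (x - c • (1 : A)) = Real.exp (-c) • exp x := by
  let _ : NormedAlgebra ℚ A := NormedAlgebra.restrictScalars ℚ ℝ A
  have hc : Commute x ((-c) • (1 : A)) := (Commute.one_right x).smul_right (-c)
  have : x - c • (1 : A) = x + (-c) • (1 : A) := by rw [neg_smul, sub_eq_add_neg]
  rw [this, exp_add_of_commute hc, exp_smul_one', mul_smul_comm, mul_one]

private theorem hasDerivAt_exp_mul (δ C u : ℝ) :
    HasDerivAt (fun u : ℝ => -(δ * Real.exp (-(u * C)))) (δ * C * Real.exp (-(u * C))) u := by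
  have h1 : HasDerivAt (fun u : ℝ => -(u * C)) (-(1 * C)) u := ((hasDerivAt_id u).mul_const C).neg
  have h2 : HasDerivAt (fun u : ℝ => -(δ * Real.exp (-(u * C))))
      (-(δ * (Real.exp (-(u * C)) * -(1 * C)))) u := ((h1.exp).const_mul δ).neg
  have e : -(δ * (Real.exp (-(u * C)) * -(1 * C))) = δ * C * Real.exp (-(u * C)) := by ring
  rwa [e] at h2

theorem perturb_step1 {S : Set A} (hS : ConvSemi S) {F f : A} (hF : F ∈ S) (hf : f ∈ S)
    {C δ : ℝ} (hC : 1 ≤ C) (h1 : ‖(f - 1) * F‖ ≤ δ) {s : ℝ} (hs : 0 ≤ s) :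
    ‖(f - 1) * (exp (s • (C • (F - 1))) - Real.exp (-(s * C)) • (1 : A))‖ ≤ δ := by
  have hδ : 0 ≤ δ := (norm_nonneg _).trans h1
  have hC0 : (0 : ℝ) ≤ C := zero_le_one.trans hC
  have hXG : (-C) • (1 : A) + C • F = C • (F - 1) := by
    rw [smul_sub, neg_smul]; abel
  have hgen : IsGen S C (C • (F - 1)) := ⟨hC0, F, hF, rfl⟩
  have hX : ∀ u : ℝ, exp (u • ((-C) • (1 : A))) = Real.exp (-(u * C)) • (1 : A) := by
    intro u
    rw [smul_smul, exp_smul_one']
    congr 2
    ring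
  have key := duhamel_left (f - 1) (1 : A) ((-C) • (1 : A)) (C • F) hs
    (fun u => -(δ * Real.exp (-(u * C)))) (fun u => δ * C * Real.exp (-(u * C)))
    (fun u => hasDerivAt_exp_mul δ C u) (by
      intro u hu
      rw [hXG, hX u]
      have e1 : (f - 1) * Real.exp (-(u * C)) • (1 : A) * (C • F)
          * exp ((s - u) • (C • (F - 1))) * 1
          = (Real.exp (-(u * C)) * C) • (((f - 1) * F) * exp ((s - u) • (C • (F - 1)))) := by
        rw [mul_comm (Real.exp (-(u * C))) C]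
        simp only [mul_one, mul_smul_comm, smul_mul_assoc, smul_smul, mul_assoc]
      rw [e1, norm_smul, Real.norm_of_nonneg (mul_nonneg (Real.exp_pos _).le hC0)]
      have e2 : ‖((f - 1) * F) * exp ((s - u) • (C • (F - 1)))‖ ≤ δ * 1 :=
        (norm_mul_le _ _).trans (mul_le_mul h1
          (hgen.norm_exp_le hS (sub_nonneg.2 hu.2)) (norm_nonneg _) hδ)
      calc Real.exp (-(u * C)) * C * ‖((f - 1) * F) * exp ((s - u) • (C • (F - 1)))‖
          ≤ Real.exp (-(u * C)) * C * (δ * 1) :=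
            mul_le_mul_of_nonneg_left e2 (mul_nonneg (Real.exp_pos _).le hC0)
        _ = δ * C * Real.exp (-(u * C)) := by ring)
  rw [hXG, hX s] at key
  have e3 : (f - 1) * (exp (s • (C • (F - 1))) - Real.exp (-(s * C)) • (1 : A))
      = (f - 1) * exp (s • (C • (F - 1))) * 1 - (f - 1) * Real.exp (-(s * C)) • (1 : A) * 1 := by
    rw [mul_sub, mul_one, mul_one]
  rw [e3]
  refine key.trans ?_
  have h0 : 0 ≤ δ * Real.exp (-(s * C)) := mul_nonneg hδ (Real.exp_pos _).le
  simp only [zero_mul, neg_zero, Real.exp_zero, mul_one]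
  linarith

theorem perturb_step2 {S : Set A} (hS : ConvSemi S) {F f : A} (hF : F ∈ S) (hf : f ∈ S)
    {C δ : ℝ} (hC : 1 ≤ C) (h2 : ‖F * (f - 1)‖ ≤ δ) {r : ℝ} (hr : 0 ≤ r) :
    ‖(exp (r • (C • (F - 1) + (f - 1))) - Real.exp (-(r * C)) • exp (r • (f - 1))) * (f - 1)‖
      ≤ δ := by
  have hδ : 0 ≤ δ := (norm_nonneg _).trans h2
  have hC0 : (0 : ℝ) ≤ C := zero_le_one.trans hC
  have hXG : ((f - 1) - C • (1 : A)) + C • F = C • (F - 1) + (f - 1) := by
    rw [smul_sub]; abel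
  have hgenL : IsGen S C (C • (F - 1)) := ⟨hC0, F, hF, rfl⟩
  have hgenY : IsGen S 1 (f - 1) := ⟨zero_le_one, f, hf, (one_smul ℝ _).symm⟩
  have hgen := hgenL.add hS hgenY
  have hX : ∀ u : ℝ, exp (u • ((f - 1) - C • (1 : A))) =
      Real.exp (-(u * C)) • exp (u • (f - 1)) := by
    intro u
    rw [smul_sub, smul_smul, exp_sub_smul_one]
  have hcomm : ∀ u : ℝ, exp (u • (f - 1)) * (f - 1) = (f - 1) * exp (u • (f - 1)) := by
    intro u
    have hc : Commute (u • (f - 1)) (f - 1) := (Commute.refl (f - 1)).smul_left u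
    exact (hc.exp_left).eq
  have key := duhamel_right (1 : A) (f - 1) ((f - 1) - C • (1 : A)) (C • F) hr
    (fun u => -(δ * Real.exp (-(u * C)))) (fun u => δ * C * Real.exp (-(u * C)))
    (fun u => hasDerivAt_exp_mul δ C u) (by
      intro u hu
      rw [hXG, hX u]
      have e1 : (1 : A) * exp ((r - u) • (C • (F - 1) + (f - 1))) * (C • F)
          * (Real.exp (-(u * C)) • exp (u • (f - 1))) * (f - 1)
          = (Real.exp (-(u * C)) * C) • (exp ((r - u) • (C • (F - 1) + (f - 1)))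
            * ((F * (f - 1)) * exp (u • (f - 1)))) := by
        have h := hcomm u
        generalize exp ((r - u) • (C • (F - 1) + (f - 1))) = E1 at *
        generalize exp (u • (f - 1)) = E2 at *
        generalize f - 1 = Z at *
        rw [one_mul, mul_smul_comm C E1 F, smul_mul_smul_comm, smul_mul_assoc,
          mul_comm C, mul_assoc (E1 * F), h]
        simp only [mul_assoc]
      rw [e1, norm_smul, Real.norm_of_nonneg (mul_nonneg (Real.exp_pos _).le hC0)]
      have e2 : ‖(F * (f - 1)) * exp (u • (f - 1))‖ ≤ δ * 1 :=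
        (norm_mul_le _ _).trans (mul_le_mul h2
          (hgenY.norm_exp_le hS hu.1) (norm_nonneg _) hδ)
      have e3 : ‖exp ((r - u) • (C • (F - 1) + (f - 1)))
            * ((F * (f - 1)) * exp (u • (f - 1)))‖ ≤ 1 * (δ * 1) :=
        (norm_mul_le _ _).trans (mul_le_mul (hgen.norm_exp_le hS (sub_nonneg.2 hu.2)) e2
          (norm_nonneg _) zero_le_one)
      calc Real.exp (-(u * C)) * C * ‖exp ((r - u) • (C • (F - 1) + (f - 1)))
            * ((F * (f - 1)) * exp (u • (f - 1)))‖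
          ≤ Real.exp (-(u * C)) * C * (1 * (δ * 1)) :=
            mul_le_mul_of_nonneg_left e3 (mul_nonneg (Real.exp_pos _).le hC0)
        _ = δ * C * Real.exp (-(u * C)) := by ring)
  rw [hXG, hX r] at key
  have e3 : (exp (r • (C • (F - 1) + (f - 1))) - Real.exp (-(r * C)) • exp (r • (f - 1)))
        * (f - 1)
      = 1 * exp (r • (C • (F - 1) + (f - 1))) * (f - 1)
        - 1 * (Real.exp (-(r * C)) • exp (r • (f - 1))) * (f - 1) := by
    rw [sub_mul, one_mul, one_mul]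
  rw [e3]
  refine key.trans ?_
  have h0 : 0 ≤ δ * Real.exp (-(r * C)) := mul_nonneg hδ (Real.exp_pos _).le
  simp only [zero_mul, neg_zero, Real.exp_zero, mul_one]
  linarith

theorem perturb {S : Set A} (hS : ConvSemi S) {F f : A} (hF : F ∈ S) (hf : f ∈ S)
    {C δ : ℝ} (hC : 1 ≤ C) (h1 : ‖(f - 1) * F‖ ≤ δ) (h2 : ‖F * (f - 1)‖ ≤ δ)
    {t : ℝ} (ht : 0 ≤ t) :
    ‖exp (t • (C • (F - 1) + (f - 1))) - exp (t • (C • (F - 1)))‖ ≤
      (1 + t) * δ + 2 * Real.exp (-(t * C)) := by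
  have hδ : 0 ≤ δ := (norm_nonneg _).trans h1
  have hC0 : (0 : ℝ) < C := lt_of_lt_of_le zero_lt_one hC
  have hgenL : IsGen S C (C • (F - 1)) := ⟨hC0.le, F, hF, rfl⟩
  have hgenY : IsGen S 1 (f - 1) := ⟨zero_le_one, f, hf, (one_smul ℝ _).symm⟩
  have hgenM := hgenL.add hS hgenY
  set L : A := C • (F - 1) with hL
  set Y : A := f - 1 with hY
  set M : A := L + Y with hM
  -- the function and its derivative
  let g : ℝ → A := fun r => exp ((t - r) • M) * exp (r • L)
    - Real.exp (-(t * C)) • exp ((t - r) • Y)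
  let g' : ℝ → A := fun r => ((-(exp ((t - r) • M) * M)) * exp (r • L)
      + exp ((t - r) • M) * (L * exp (r • L)))
    - Real.exp (-(t * C)) • (-(exp ((t - r) • Y) * Y))
  have hsubr : ∀ r : ℝ, HasDerivAt (fun r : ℝ => t - r) (-1) r := fun r => by
    simpa using (hasDerivAt_id r).const_sub t
  have hexpd : ∀ (Z : A) (r : ℝ), HasDerivAt (fun r : ℝ => exp ((t - r) • Z))
      (-(exp ((t - r) • Z) * Z)) r := by
    intro Z r
    have h := (hasDerivAt_exp_smul_const (𝕂 := ℝ) Z (t - r)).scomp r (hsubr r)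
    have e : (-1 : ℝ) • (exp ((t - r) • Z) * Z) = -(exp ((t - r) • Z) * Z) := by
      rw [neg_smul, one_smul]
    rw [e] at h
    exact h
  have hg : ∀ r, HasDerivAt g (g' r) r := by
    intro r
    exact ((hexpd M r).mul (hasDerivAt_exp_smul_const' (𝕂 := ℝ) L r)).sub
      ((hexpd Y r).const_smul (Real.exp (-(t * C))))
  have hg'norm : ∀ r ∈ Set.Ico (0 : ℝ) t, ‖g' r‖ ≤ δ + δ * Real.exp (-(r * C)) := by
    intro r hr
    have hexp : Real.exp (-(t * C)) = Real.exp (-(r * C)) * Real.exp (-((t - r) * C)) := by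
      rw [← Real.exp_add]; congr 1; ring
    have e1 : g' r = -(exp ((t - r) • M) * (Y * (exp (r • L) - Real.exp (-(r * C)) • (1 : A)))
        + Real.exp (-(r * C)) • ((exp ((t - r) • M)
          - Real.exp (-((t - r) * C)) • exp ((t - r) • Y)) * Y)) := by
      simp only [g', hexp]
      generalize Real.exp (-(r * C)) = c1
      generalize Real.exp (-((t - r) * C)) = c2
      generalize exp ((t - r) • M) = E1
      generalize exp (r • L) = E2
      generalize exp ((t - r) • Y) = E3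
      rw [hM]
      clear_value M Y L
      simp only [mul_sub, mul_add, add_mul, neg_mul, neg_add, mul_assoc, neg_sub,
        mul_smul_comm, smul_mul_assoc, mul_one, sub_mul, smul_sub, smul_smul, smul_neg]
      abel
    rw [e1, norm_neg]
    refine (norm_add_le _ _).trans (add_le_add ?_ ?_)
    · calc ‖exp ((t - r) • M) * (Y * (exp (r • L) - Real.exp (-(r * C)) • (1 : A)))‖
          ≤ ‖exp ((t - r) • M)‖ * ‖Y * (exp (r • L) - Real.exp (-(r * C)) • (1 : A))‖ :=
            norm_mul_le _ _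
        _ ≤ 1 * δ := mul_le_mul (hgenM.norm_exp_le hS (sub_nonneg.2 hr.2.le))
            (perturb_step1 hS hF hf hC h1 hr.1) (norm_nonneg _) zero_le_one
        _ = δ := one_mul δ
    · rw [norm_smul, Real.norm_of_nonneg (Real.exp_pos _).le, mul_comm]
      exact mul_le_mul_of_nonneg_right
        (perturb_step2 hS hF hf hC h2 (sub_nonneg.2 hr.2.le)) (Real.exp_pos _).le
  have hBd : ∀ r : ℝ, HasDerivAt (fun r : ℝ => δ * r + (δ / C - δ / C * Real.exp (-(r * C))))
      (δ + δ * Real.exp (-(r * C))) r := by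
    intro r
    have ha : HasDerivAt (fun r : ℝ => δ * r) (δ * 1) r := (hasDerivAt_id r).const_mul δ
    have hb := (hasDerivAt_exp_mul (δ / C) C r).const_add (δ / C)
    have hc := ha.add hb
    have e : δ * 1 + δ / C * C * Real.exp (-(r * C)) = δ + δ * Real.exp (-(r * C)) := by
      rw [mul_one, div_mul_cancel₀ _ hC0.ne']
    rw [e] at hc
    exact hc
  have key := image_norm_le_of_norm_deriv_right_le_deriv_boundary
    (f := fun r => g r - g 0) (f' := g') (a := 0) (b := t)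
    (fun r _ => ((hg r).sub_const (g 0)).continuousAt.continuousWithinAt)
    (fun r _ => ((hg r).sub_const (g 0)).hasDerivWithinAt)
    (B := fun r : ℝ => δ * r + (δ / C - δ / C * Real.exp (-(r * C))))
    (B' := fun r => δ + δ * Real.exp (-(r * C)))
    (by simp) hBd hg'norm (Set.right_mem_Icc.2 ht)
  have key2 : ‖g t - g 0‖ ≤ (1 + t) * δ := by
    refine key.trans ?_
    have h0 : 0 ≤ δ / C * Real.exp (-(t * C)) :=
      mul_nonneg (div_nonneg hδ hC0.le) (Real.exp_pos _).le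
    have h3 : δ / C ≤ δ := div_le_self hδ hC
    have h4 : (1 + t) * δ = δ + δ * t := by ring
    rw [h4]
    linarith
  have e4 : exp (t • M) - exp (t • L) = -(g t - g 0)
      + Real.exp (-(t * C)) • (exp (t • Y) - 1) := by
    simp only [g, sub_self, zero_smul, exp_zero, one_mul, sub_zero, mul_one, smul_sub]
    abel
  rw [e4]
  refine (norm_add_le _ _).trans (add_le_add (by rw [norm_neg]; exact key2) ?_)
  rw [norm_smul, Real.norm_of_nonneg (Real.exp_pos _).le, mul_comm]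
  refine mul_le_mul_of_nonneg_right ?_ (Real.exp_pos _).le
  refine (norm_sub_le _ _).trans ?_
  have := hgenY.norm_exp_le hS ht
  have := hS.norm_one
  linarith

end LCQG.Semi
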