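import Mathlib
import Pool.Agent.Lib.MP_ea3264_an.S.Perturb
import Pool.Agent.Lib.MP_ea3264_an.S.Seqs

/-!
# Convergence of the semigroups `exp (t L_N)`

`step_le`: for `N ≥ 1`, `LN (N+1) = (C_N • (F_N - 1) + (f_N - 1)) + d_N • (g_N - 1)` (`LN_eq`);
`perturb` (with `C = CN N ≥ 1`, `δ = (1/8)^N`) and `norm_exp_add_sub_le` with
`‖d_N • (g_N - 1)‖ ≤ 2 d_N` give
`‖exp (t • L_{N+1}) - exp (t • L_N)‖ ≤ (1 + t) (1/8)^N + 2 exp (-t C_N) + 2 t (1/2)^N`, and
`C_N ≥ N`.
`exists_limit`: for fixed `t > 0` the right side is summable in `N` (`exp (-t N)` is geometric), so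
`exp (t • L_N)` is a Cauchy sequence (`cauchySeq_of_summable_dist` or
`cauchySeq_of_le_geometric`-like lemmas); let `μ t` be its limit (and `μ t = 0`, say, for
`t ≤ 0`). `μ t ∈ S` by `IsGen.exists_near` (`exp (-(t * CN N)) → 0`) and closedness; and
`exp ((s + t) • L) = exp (s • L) * exp (t • L)` passes to the limit.
-/

set_option autoImplicit false

open scoped Topology
open Filter NormedSpace

noncomputable section

namespace LCQG.Semi

variable {A : Type*} [NormedRing A] [NormedAlgebra ℝ A] [CompleteSpace A]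

theorem step_le {S : Set A} (hS : ConvSemi S) {ω f g : ℕ → A} (h : Seqs S ω f g) {N : ℕ}
    (hN : 1 ≤ N) {t : ℝ} (ht : 0 ≤ t) :
    ‖exp (t • LN f g (N + 1)) - exp (t • LN f g N)‖ ≤
      (1 + t) * (1 / 8) ^ N + 2 * Real.exp (-(t * N)) + 2 * t * (1 / 2) ^ N := by
  have hC : (N : ℝ) ≤ CN N := le_CN N
  have hC1 : (1 : ℝ) ≤ CN N := le_trans (by exact_mod_cast hN) hC
  have hF : FN f g N ∈ S := FN_mem hS hN (fun j _ => h.hf j) (fun j _ => h.hg j)
  have hL : LN f g N = CN N • (FN f g N - 1) := LN_eq hN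
  have hL1 : LN f g (N + 1) =
      (CN N • (FN f g N - 1) + (f N - 1)) + dj N • (g N - 1) := by
    rw [← hL]
    unfold LN
    rw [Finset.sum_range_succ, add_assoc]
  have hg1 : IsGen S (CN N) (CN N • (FN f g N - 1)) := ⟨by linarith, _, hF, rfl⟩
  have hY : IsGen S 1 (f N - 1) := ⟨zero_le_one, f N, h.hf N, (one_smul _ _).symm⟩
  have hZ : IsGen S (dj N) (dj N • (g N - 1)) := ⟨(dj_pos N).le, g N, h.hg N, rfl⟩
  have hLY := hg1.add hS hY
  have hLYZ := hLY.add hS hZ
  have e1 := perturb hS hF (h.hf N) hC1 (h.fF N hN) (h.Ff N hN) ht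
  have hκ : ‖dj N • (g N - 1)‖ ≤ 2 * (1 / 2) ^ N := by
    rw [norm_smul, Real.norm_eq_abs, abs_of_pos (dj_pos N)]
    have h1 : ‖g N - 1‖ ≤ 2 := (norm_sub_le _ _).trans (by
      have := hS.norm_le _ (h.hg N)
      have := hS.norm_one
      linarith)
    have h2 := dj_pos N
    have h3 : dj N = (1 / 2) ^ N := rfl
    rw [← h3]
    nlinarith
  have e2 := norm_exp_add_sub_le (CN N • (FN f g N - 1) + (f N - 1)) (dj N • (g N - 1)) hκ ht
    hS.norm_one (fun s hs => hLY.norm_exp_le hS hs) (fun s hs => hLYZ.norm_exp_le hS hs)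
  have e3 : Real.exp (-(t * CN N)) ≤ Real.exp (-(t * N)) := by
    apply Real.exp_le_exp.2
    nlinarith
  rw [hL1, hL]
  calc _ = ‖(exp (t • (CN N • (FN f g N - 1) + (f N - 1) + dj N • (g N - 1)))
        - exp (t • (CN N • (FN f g N - 1) + (f N - 1))))
        + (exp (t • (CN N • (FN f g N - 1) + (f N - 1))) -
          exp (t • (CN N • (FN f g N - 1))))‖ := by
        rw [sub_add_sub_cancel]
    _ ≤ _ := norm_add_le _ _
    _ ≤ _ := by linarith

private theorem summable_bd {t : ℝ} (ht : 0 < t) : Summable (fun N : ℕ =>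
    (1 + t) * (1 / 8) ^ N + 2 * Real.exp (-(t * N)) + 2 * t * (1 / 2) ^ N) := by
  have h1 : Summable (fun N : ℕ => ((1 : ℝ) / 8) ^ N) :=
    summable_geometric_of_lt_one (by norm_num) (by norm_num)
  have h2 : Summable (fun N : ℕ => ((1 : ℝ) / 2) ^ N) :=
    summable_geometric_of_lt_one (by norm_num) (by norm_num)
  have h3 : Summable (fun N : ℕ => Real.exp (-(t * N))) := by
    have := Real.summable_exp_nat_mul_iff.2 (neg_lt_zero.2 ht)
    refine this.congr (fun N => ?_)
    congr 1
    ring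
  exact ((h1.mul_left _).add (h3.mul_left _)).add (h2.mul_left _)

theorem exists_limit {S : Set A} (hS : ConvSemi S) {ω f g : ℕ → A} (h : Seqs S ω f g) :
    ∃ μ : ℝ → A, (∀ t, 0 < t → Tendsto (fun N => exp (t • LN f g N)) atTop (𝓝 (μ t))) ∧
      (∀ t, 0 < t → μ t ∈ S) ∧
      (∀ s t, 0 < s → 0 < t → μ (s + t) = μ s * μ t) := by
  classical
  have hlim : ∀ t : ℝ, ∃ m : A, 0 < t → Tendsto (fun N => exp (t • LN f g N)) atTop (𝓝 m) := by
    intro t
    by_cases ht : 0 < t
    · have hc : CauchySeq (fun N => exp (t • LN f g N)) := by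
        apply cauchySeq_of_summable_dist
        rw [← summable_nat_add_iff 1]
        refine Summable.of_nonneg_of_le (fun N => dist_nonneg) (fun N => ?_)
          ((summable_nat_add_iff 1).2 (summable_bd ht))
        rw [dist_comm, dist_eq_norm]
        exact step_le hS h (Nat.le_add_left 1 N) ht.le
      obtain ⟨m, hm⟩ := cauchySeq_tendsto_of_complete hc
      exact ⟨m, fun _ => hm⟩
    · exact ⟨0, fun h' => absurd h' ht⟩
  choose μ hμ using hlim
  refine ⟨μ, hμ, ?_, ?_⟩
  · intro t ht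
    have hgen := fun N => LN_isGen hS h.hf h.hg N
    choose a ha hab using fun N => (hgen N).exists_near hS ht.le
    have h0 : Tendsto (fun N : ℕ => 2 * Real.exp (-(t * N))) atTop (𝓝 0) := by
      have := (summable_bd ht).tendsto_atTop_zero
      refine squeeze_zero (fun N => by positivity) (fun N => ?_) this
      have h1 : (0 : ℝ) ≤ (1 + t) * (1 / 8) ^ N := by positivity
      have h2 : (0 : ℝ) ≤ 2 * t * (1 / 2) ^ N := by positivity
      linarith
    have h1 : Tendsto (fun N => exp (t • LN f g N) - a N) atTop (𝓝 0) := by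
      apply squeeze_zero_norm (fun N => ?_) h0
      refine (hab N).trans ?_
      have := le_CN N
      have h3 : Real.exp (-(t * CN N)) ≤ Real.exp (-(t * N)) := by
        apply Real.exp_le_exp.2
        nlinarith
      linarith
    have h2 : Tendsto a atTop (𝓝 (μ t)) := by
      have := (hμ t ht).sub h1
      simpa using this
    exact hS.closed.mem_of_tendsto h2 (Eventually.of_forall ha)
  · intro s t hs ht
    have h1 := hμ (s + t) (add_pos hs ht)
    have h2 := (hμ s hs).mul (hμ t ht)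
    refine tendsto_nhds_unique h1 (h2.congr (fun N => ?_))
    letI : NormedAlgebra ℚ A := NormedAlgebra.restrictScalars ℚ ℝ A
    rw [add_smul]
    refine (exp_add_of_commute ?_).symm
    exact ((Commute.refl (LN f g N)).smul_left s).smul_right t

end LCQG.Semi
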