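import Mathlib
import Pool.Agent.Lib.MP_ea3264_an.S.Duhamel
import Pool.Agent.Lib.MP_ea3264_an.S.Seqs

/-!
# Continuity at zero

For `k ≤ N`: `‖L_N * ω_k‖ ≤ ∑_{j < k} 4 + ∑_{k ≤ j < N} ((1/8)^j + 2 (1/2)^j) ≤ 4 k + 6`
(each `‖f j - 1‖ ≤ 2`, `‖g j - 1‖ ≤ 2`, `‖ω k‖ ≤ 1`; for `j ≥ k` use `Seqs.fω`). Then
`norm_exp_mul_sub_le` with `IsGen.norm_exp_le` and `LN_isGen`.
-/

set_option autoImplicit false

open scoped Topology
open Filter NormedSpace

noncomputable section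

namespace LCQG.Semi

variable {A : Type*} [NormedRing A] [NormedAlgebra ℝ A] [CompleteSpace A]

theorem norm_LN_mul_le {S : Set A} (hS : ConvSemi S) {ω f g : ℕ → A} (h : Seqs S ω f g)
    (k N : ℕ) : ‖LN f g N * ω k‖ ≤ 4 * k + 6 := by
  have hsub : ∀ a ∈ S, ‖a - 1‖ ≤ 2 := fun a ha =>
    (norm_sub_le a 1).trans (by linarith [hS.norm_le a ha, hS.norm_one])
  have hmul : ∀ a ∈ S, ‖(a - 1) * ω k‖ ≤ 2 := fun a ha => by
    refine (norm_mul_le _ _).trans ?_
    nlinarith [hsub a ha, hS.norm_le _ (h.hω k), norm_nonneg (a - 1), norm_nonneg (ω k)]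
  have hterm : ∀ j ∈ Finset.range N, ‖((f j - 1) + dj j • (g j - 1)) * ω k‖ ≤
      (if j < k then (4 : ℝ) else 0) + 3 * (1 / 2) ^ j := by
    intro j _
    have h2 : ‖(dj j • (g j - 1)) * ω k‖ ≤ dj j * 2 := by
      rw [smul_mul_assoc, norm_smul, Real.norm_of_nonneg (dj_pos j).le]
      exact mul_le_mul_of_nonneg_left (hmul _ (h.hg j)) (dj_pos j).le
    have h3 : dj j = (1 / 2 : ℝ) ^ j := rfl
    have h4 : (1 / 2 : ℝ) ^ j ≤ 1 := pow_le_one₀ (by norm_num) (by norm_num)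
    have h5 : (0 : ℝ) < (1 / 2) ^ j := by positivity
    rw [add_mul]
    refine (norm_add_le _ _).trans ?_
    rw [h3] at h2 ⊢
    split_ifs with hj
    · have h1 := hmul _ (h.hf j)
      linarith
    · have h1 := h.fω j k (not_lt.1 hj)
      have h6 : (1 / 8 : ℝ) ^ j ≤ (1 / 2) ^ j :=
        pow_le_pow_left₀ (by norm_num) (by norm_num) j
      linarith
  have hite : ∑ j ∈ Finset.range N, (if j < k then (4 : ℝ) else 0) ≤ 4 * k := by
    rw [← Finset.sum_filter, Finset.sum_const, nsmul_eq_mul, mul_comm]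
    have hc : ((Finset.range N).filter fun j => j < k).card ≤ k := by
      calc _ ≤ (Finset.range k).card := Finset.card_le_card (fun j hj => by
              rw [Finset.mem_filter] at hj
              exact Finset.mem_range.2 hj.2)
        _ = k := Finset.card_range k
    have : (((Finset.range N).filter fun j => j < k).card : ℝ) ≤ k := by exact_mod_cast hc
    linarith
  have hgeo := sum_geometric_two_le N
  calc ‖LN f g N * ω k‖ = ‖∑ j ∈ Finset.range N, ((f j - 1) + dj j • (g j - 1)) * ω k‖ := by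
        rw [LN, Finset.sum_mul]
    _ ≤ ∑ j ∈ Finset.range N, ‖((f j - 1) + dj j • (g j - 1)) * ω k‖ := norm_sum_le _ _
    _ ≤ ∑ j ∈ Finset.range N, ((if j < k then (4 : ℝ) else 0) + 3 * (1 / 2) ^ j) :=
        Finset.sum_le_sum hterm
    _ = ∑ j ∈ Finset.range N, (if j < k then (4 : ℝ) else 0) +
          3 * ∑ j ∈ Finset.range N, (1 / 2 : ℝ) ^ j := by
        rw [Finset.sum_add_distrib, Finset.mul_sum]
    _ ≤ 4 * k + 6 := by linarith

theorem near_zero {S : Set A} (hS : ConvSemi S) {ω f g : ℕ → A} (h : Seqs S ω f g)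
    (k N : ℕ) {t : ℝ} (ht : 0 ≤ t) :
    ‖exp (t • LN f g N) * ω k - ω k‖ ≤ t * (4 * k + 6) :=
  norm_exp_mul_sub_le (LN f g N) (ω k) (norm_LN_mul_le hS h k N) ht
    (fun _ hs => (LN_isGen hS h.hf h.hg N).norm_exp_le hS hs)

end LCQG.Semi
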