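import Mathlib
import Pool.Agent.Lib.MP_ea3264_an.S.Limit
import Pool.Agent.Lib.MP_ea3264_an.S.Zero
import Pool.Agent.Lib.MP_ea3264_an.S.Invar

/-!
# The abstract theorem

Let `ω : ℕ → A` be a sequence in `S` whose range is dense in `S` (i.e. `S ⊆ closure (range ω)`;
a subset of a separable metric space is separable and `S` is nonempty), `f, g` from
`exists_seqs`, `μ` from `exists_limit`. By `near_zero` and `N → ∞`,
`‖μ t * ω k - ω k‖ ≤ t (4 k + 6)` for `t > 0`; with `‖μ t‖ ≤ 1` and density,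
`μ t * a → a` as `t → 0+` for all `a ∈ S`. By `invar_le` and `N → ∞`,
`‖(ω k - 1) * μ t‖ ≤ 2 exp (-t d_n) + 8 (1/2)^n` for `k ≤ n`, so `(ω k - 1) * μ t → 0` as
`t → ∞`; with `‖μ t‖ ≤ 1` and density, `a * μ t - μ t → 0` for all `a ∈ S`.
-/

set_option autoImplicit false

open scoped Topology
open Filter NormedSpace

noncomputable section

namespace LCQG.Semi

variable {A : Type*} [NormedRing A] [NormedAlgebra ℝ A] [CompleteSpace A]

theorem exists_semigroup {S : Set A} (hS : ConvSemi S)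
    (hsep : TopologicalSpace.IsSeparable S)
    (hU : ∀ F : Set A, F.Finite → F ⊆ S → ∀ δ : ℝ, 0 < δ →
      ∃ f ∈ S, ∀ a ∈ F, ‖f * a - a‖ ≤ δ ∧ ‖a * f - a‖ ≤ δ)
    (hI : ∀ F : Set A, F.Finite → F ⊆ S → ∀ δ : ℝ, 0 < δ →
      ∃ g ∈ S, ∀ a ∈ F, ‖a * g - g‖ ≤ δ) :
    ∃ μ : ℝ → A, (∀ t, 0 < t → μ t ∈ S) ∧
      (∀ s t, 0 < s → 0 < t → μ (s + t) = μ s * μ t) ∧
      (∀ a ∈ S, Tendsto (fun t => μ t * a) (𝓝[>] 0) (𝓝 a)) ∧
      (∀ a ∈ S, Tendsto (fun t => a * μ t - μ t) atTop (𝓝 0)) := by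
  classical
  -- a dense sequence
  obtain ⟨T, hTS, hTc, hTd⟩ := hsep.exists_countable_dense_subset
  have hTne : T.Nonempty := by
    obtain ⟨a, ha⟩ := hS.nonempty
    by_contra hne
    rw [Set.not_nonempty_iff_eq_empty] at hne
    have := hTd ha
    rw [hne, closure_empty] at this
    exact this
  obtain ⟨ω, hωT⟩ := hTc.exists_eq_range hTne
  have hω : ∀ N, ω N ∈ S := fun N => hTS (by rw [hωT]; exact Set.mem_range_self N)
  have hdense : ∀ a ∈ S, ∀ ε : ℝ, 0 < ε → ∃ k, ‖a - ω k‖ < ε := by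
    intro a ha ε hε
    have h1 := hTd ha
    rw [Metric.mem_closure_iff] at h1
    obtain ⟨b, hb, hab⟩ := h1 ε hε
    rw [hωT] at hb
    obtain ⟨k, rfl⟩ := hb
    exact ⟨k, by rwa [dist_eq_norm] at hab⟩
  obtain ⟨f, g, h⟩ := exists_seqs hS hU hI ω hω
  obtain ⟨μ, hlim, hμS, hμ⟩ := exists_limit hS h
  have hμ1 : ∀ t, 0 < t → ‖μ t‖ ≤ 1 := fun t ht => hS.norm_le _ (hμS t ht)
  have hzero : ∀ k t, 0 < t → ‖μ t * ω k - ω k‖ ≤ t * (4 * k + 6) := by
    intro k t ht
    have h1 : Tendsto (fun N => ‖exp (t • LN f g N) * ω k - ω k‖) atTop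
        (𝓝 ‖μ t * ω k - ω k‖) := (((hlim t ht).mul_const (ω k)).sub_const (ω k)).norm
    exact le_of_tendsto' h1 fun N => near_zero hS h k N ht.le
  have hinf : ∀ k n t, k ≤ n → 0 < t →
      ‖(ω k - 1) * μ t‖ ≤ 2 * Real.exp (-(t * dj n)) + 8 * (1 / 2) ^ n := by
    intro k n t hk ht
    have h1 : Tendsto (fun N => ‖(ω k - 1) * exp (t • LN f g N)‖) atTop
        (𝓝 ‖(ω k - 1) * μ t‖) := ((hlim t ht).const_mul (ω k - 1)).norm
    refine le_of_tendsto h1 ?_
    filter_upwards [eventually_gt_atTop n] with N hN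
    exact invar_le hS h hk hN ht.le
  refine ⟨μ, hμS, hμ, fun a ha => ?_, fun a ha => ?_⟩
  · rw [Metric.tendsto_nhdsWithin_nhds]
    intro ε hε
    obtain ⟨k, hk⟩ := hdense a ha (ε / 4) (by positivity)
    have hk6 : (0 : ℝ) < 4 * k + 6 := by positivity
    refine ⟨ε / (4 * (4 * k + 6)), by positivity, fun t ht htd => ?_⟩
    have ht0 : 0 < t := ht
    rw [Real.dist_eq, sub_zero, abs_of_pos ht0, lt_div_iff₀ (by positivity)] at htd
    rw [dist_eq_norm]
    have e : μ t * a - a = μ t * (a - ω k) + (μ t * ω k - ω k) + -(a - ω k) := by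
      rw [mul_sub]
      abel
    have h1 : ‖μ t * (a - ω k)‖ ≤ ‖a - ω k‖ := by
      refine (norm_mul_le _ _).trans ?_
      exact mul_le_of_le_one_left (norm_nonneg _) (hμ1 t ht0)
    have h2 := hzero k t ht0
    calc ‖μ t * a - a‖ ≤ ‖μ t * (a - ω k)‖ + ‖μ t * ω k - ω k‖ + ‖-(a - ω k)‖ := by
          rw [e]
          exact norm_add₃_le
      _ < ε := by
          rw [norm_neg]
          linarith
  · rw [Metric.tendsto_atTop]
    intro ε hε
    obtain ⟨k, hk⟩ := hdense a ha (ε / 4) (by positivity)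
    obtain ⟨m, hm⟩ := exists_pow_lt_of_lt_one (by positivity : (0 : ℝ) < ε / 32)
      (by norm_num : (1 / 2 : ℝ) < 1)
    obtain ⟨n, hn⟩ : ∃ n, n = max k m := ⟨_, rfl⟩
    have hkn : k ≤ n := by rw [hn]; exact le_max_left _ _
    have hmn : m ≤ n := by rw [hn]; exact le_max_right _ _
    have h3 : (1 / 2 : ℝ) ^ n < ε / 32 :=
      (pow_le_pow_of_le_one (by norm_num) (by norm_num) hmn).trans_lt hm
    have hexp : Tendsto (fun t : ℝ => Real.exp (-(t * dj n))) atTop (𝓝 0) :=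
      Real.tendsto_exp_neg_atTop_nhds_zero.comp
        (tendsto_id.atTop_mul_const (dj_pos n))
    obtain ⟨t0, ht0⟩ := (Metric.tendsto_atTop.1 hexp) (ε / 8) (by positivity)
    refine ⟨max t0 1, fun t ht => ?_⟩
    have htpos : 0 < t := lt_of_lt_of_le one_pos ((le_max_right _ _).trans ht)
    have h4 := ht0 t ((le_max_left _ _).trans ht)
    rw [Real.dist_eq, sub_zero, abs_of_pos (Real.exp_pos _)] at h4
    rw [dist_zero_right]
    have e : a * μ t - μ t = (a - ω k) * μ t + (ω k - 1) * μ t := by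
      rw [sub_mul, sub_mul, one_mul]
      abel
    have h1 : ‖(a - ω k) * μ t‖ ≤ ‖a - ω k‖ := by
      refine (norm_mul_le _ _).trans ?_
      exact mul_le_of_le_one_right (norm_nonneg _) (hμ1 t htpos)
    have h2 := hinf k n t hkn htpos
    calc ‖a * μ t - μ t‖ ≤ ‖(a - ω k) * μ t‖ + ‖(ω k - 1) * μ t‖ := by
          rw [e]
          exact norm_add_le _ _
      _ < ε := by linarith

end LCQG.Semi
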